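import Mathlib
import Pool.Agent.X279.GolodAll

/-!
# A basic ring which is not F-noetherian

An algebra over a finite field all of whose matrices are algebraic is basic.  A Golod-Shafarevich
algebra `R = 𝔽₂ ⊕ N` with two generators, infinite, such that all matrices over `N` are nilpotent
has this property; but a noetherian subring containing the generators would be `R` itself, and a
noetherian ring with a nil ideal of finite index is finite.
-/

set_option autoImplicit false

universe u

namespace Pool.Agent.Results.MP_42b5d3_al.BasicNotFNoetherian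

open Polynomial Matrix MulOpposite

/-- Left and right noetherian rings. -/
def Noeth (R : Type) [Ring R] : Prop := IsNoetherianRing R ∧ IsNoetherianRing Rᵐᵒᵖ

/-- F-noetherian rings: each finite subset lies in a noetherian subring. -/
def FNoetherian (R : Type) [Ring R] : Prop :=
  ∀ S : Finset R, ∃ T : Subring R, (S : Set R) ⊆ T ∧ Noeth T

/-- The basic condition for left modules (in the universe `u`). -/
def LeftBasic (R : Type) [Ring R] : Prop :=
  ∀ (M A : Type u) [AddCommGroup M] [AddCommGroup A] [Module R M] [Module R A]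
    [Module.Finite R M] (f i : A →ₗ[R] M), Function.Surjective f → Function.Injective i →
      Function.Bijective f

/-- Basic rings: the condition for left modules and for right modules. -/
def Basic (R : Type) [Ring R] : Prop := LeftBasic.{u} R ∧ LeftBasic.{u} Rᵐᵒᵖ

/-! ### Algebraic matrices -/

section basic

variable {K R : Type} [Field K] [Ring R] [Algebra K R] {n : ℕ}

/-- The action of polynomials on row vectors through a matrix. -/
noncomputable def act (T : Matrix (Fin n) (Fin n) R) (v : Fin n → R) (Q : K[X]) : Fin n → R :=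
  v ᵥ* (aeval T Q)

theorem act_X_mul (T : Matrix (Fin n) (Fin n) R) (v : Fin n → R) (Q : K[X]) :
    act T v (X * Q) = act T v Q ᵥ* T := by
  unfold act
  rw [Matrix.vecMul_vecMul, mul_comm X Q, map_mul, aeval_X]

theorem act_C (T : Matrix (Fin n) (Fin n) R) (v : Fin n → R) (c : K) :
    act T v (C c) = (algebraMap K R c) • v := by
  unfold act
  rw [aeval_C, Matrix.algebraMap_eq_diagonal]
  funext l
  rw [Matrix.vecMul_diagonal, Pi.smul_apply, smul_eq_mul]
  exact (Algebra.commutes c (v l)).symm

theorem act_add (T : Matrix (Fin n) (Fin n) R) (v : Fin n → R) (P Q : K[X]) :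
    act T v (P + Q) = act T v P + act T v Q := by
  unfold act
  rw [map_add, Matrix.vecMul_add]

theorem smul_mem_of_smul {I : Submodule R (Fin n → R)} {c : K} (hc : c ≠ 0) {v : Fin n → R}
    (h : (algebraMap K R c) • v ∈ I) : v ∈ I := by
  have h1 := I.smul_mem (algebraMap K R c⁻¹) h
  rwa [smul_smul, ← map_mul, inv_mul_cancel₀ hc, map_one, one_smul] at h1

/-- If `T⁻¹ I ⊆ I` and a nonconstant polynomial in `T` maps `v ∈ I` into `I`, then `v T ∈ I`. -/
theorem step_mem {I : Submodule R (Fin n → R)} {T : Matrix (Fin n) (Fin n) R}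
    (hpull : ∀ v, v ᵥ* T ∈ I → v ∈ I) {v : Fin n → R} (hv : v ∈ I) :
    ∀ (d : ℕ) (Q : K[X]), Q.natDegree = d + 1 → act T v Q ∈ I → v ᵥ* T ∈ I := by
  intro d
  induction d with
  | zero =>
    intro Q hQ h
    have hQ' : Q = C (Q.coeff 1) * X + C (Q.coeff 0) := eq_X_add_C_of_natDegree_le_one hQ.le
    have h1 : act T v Q = (algebraMap K R (Q.coeff 1)) • (v ᵥ* T) + (algebraMap K R (Q.coeff 0)) • v := by
      conv_lhs => rw [hQ']
      rw [act_add, act_C, mul_comm, act_X_mul, act_C, Matrix.smul_vecMul]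
    rw [h1] at h
    have h2 := I.sub_mem h (I.smul_mem (algebraMap K R (Q.coeff 0)) hv)
    rw [add_sub_cancel_right] at h2
    refine smul_mem_of_smul ?_ h2
    intro h0
    have : Q.leadingCoeff = 0 := by rw [leadingCoeff, hQ]; exact h0
    rw [leadingCoeff_eq_zero] at this
    rw [this] at hQ
    simp at hQ
  | succ d ih =>
    intro Q hQ h
    have hQ' : Q = X * Q.divX + C (Q.coeff 0) := by rw [mul_comm]; exact (divX_mul_X_add Q).symm
    have h1 : act T v Q = act T v Q.divX ᵥ* T + (algebraMap K R (Q.coeff 0)) • v := by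
      conv_lhs => rw [hQ']
      rw [act_add, act_C, act_X_mul]
    rw [h1] at h
    have h2 := I.sub_mem h (I.smul_mem (algebraMap K R (Q.coeff 0)) hv)
    rw [add_sub_cancel_right] at h2
    exact ih Q.divX (by rw [natDegree_divX_eq_natDegree_tsub_one, hQ]; rfl) (hpull _ h2)

theorem leftBasic_of (hK : ∀ (n : ℕ) (T : Matrix (Fin n) (Fin n) R), ∃ P : K[X], P ≠ 0 ∧
    aeval T P = 0) : LeftBasic.{u} R := by
  intro M A _ _ _ _ _ f i hf hi
  refine ⟨?_, hf⟩
  obtain ⟨n, m, hm⟩ := Module.Finite.exists_fin (R := R) (M := M)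
  choose a ha using fun j => hf (m j)
  set π : (Fin n → R) →ₗ[R] M := Fintype.linearCombination R m with hπ
  set α : (Fin n → R) →ₗ[R] A := Fintype.linearCombination R a with hα
  have hπs : Function.Surjective π := by
    rw [← LinearMap.range_eq_top, hπ, Fintype.range_linearCombination, hm]
  choose T hT using fun j => hπs (i (a j))
  have h1 : ∀ v, f (α v) = π v := by
    intro v
    rw [hα, hπ, Fintype.linearCombination_apply, Fintype.linearCombination_apply, map_sum]
    refine Finset.sum_congr rfl fun j _ => ?_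
    rw [map_smul, ha]
  have h2 : ∀ v, i (α v) = π (v ᵥ* (Matrix.of T)) := by
    intro v
    have e1 : v ᵥ* (Matrix.of T) = ∑ j, v j • T j := by
      funext l
      simp [Matrix.vecMul, dotProduct, Finset.sum_apply]
    rw [e1, map_sum, hα, Fintype.linearCombination_apply, map_sum]
    refine Finset.sum_congr rfl fun j _ => ?_
    rw [map_smul, map_smul, hT]
  set I : Submodule R (Fin n → R) := LinearMap.ker π with hI
  have hpull : ∀ v, v ᵥ* (Matrix.of T) ∈ I → v ∈ I := by
    intro v hv
    rw [hI, LinearMap.mem_ker, ← h2] at hv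
    have h3 : α v = 0 := hi (by rw [hv, map_zero])
    rw [hI, LinearMap.mem_ker, ← h1, h3, map_zero]
  obtain ⟨P, hP0, hP⟩ := hK n (Matrix.of T)
  obtain ⟨Q, hPQ, hQ⟩ := exists_eq_pow_rootMultiplicity_mul_and_not_dvd P hP0 0
  rw [map_zero, sub_zero] at hPQ hQ
  have hQ0 : Q.coeff 0 ≠ 0 := fun h => hQ (X_dvd_iff.2 h)
  have hpullk : ∀ (k : ℕ) (v : Fin n → R) (Q : K[X]), act (Matrix.of T) v (X ^ k * Q) ∈ I →
      act (Matrix.of T) v Q ∈ I := by
    intro k
    induction k with
    | zero => intro v Q h; simpa using h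
    | succ k ih =>
      intro v Q h
      rw [pow_succ', mul_assoc, act_X_mul] at h
      exact ih v Q (hpull _ h)
  have hQI : ∀ v, act (Matrix.of T) v Q ∈ I := by
    intro v
    refine hpullk (P.rootMultiplicity 0) v Q ?_
    rw [← hPQ]
    unfold act
    rw [hP, Matrix.vecMul_zero]
    exact I.zero_mem
  have hpush : ∀ v ∈ I, v ᵥ* (Matrix.of T) ∈ I := by
    intro v hv
    rcases Nat.eq_zero_or_pos Q.natDegree with h0 | h0
    · have h3 := hQI (v ᵥ* (Matrix.of T))
      rw [eq_C_of_natDegree_eq_zero h0, act_C] at h3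
      exact smul_mem_of_smul hQ0 h3
    · exact step_mem hpull hv (Q.natDegree - 1) Q (by omega) (hQI v)
  have hsurj : ∀ v, ∃ v', v - v' ᵥ* (Matrix.of T) ∈ I := by
    intro v
    have h3 := hQI v
    have hQ' : Q = X * Q.divX + C (Q.coeff 0) := by rw [mul_comm]; exact (divX_mul_X_add Q).symm
    have h4 : act (Matrix.of T) v Q = act (Matrix.of T) v Q.divX ᵥ* (Matrix.of T)
        + (algebraMap K R (Q.coeff 0)) • v := by
      conv_lhs => rw [hQ']
      rw [act_add, act_C, act_X_mul]
    rw [h4] at h3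
    refine ⟨-((algebraMap K R (Q.coeff 0)⁻¹) • act (Matrix.of T) v Q.divX), ?_⟩
    refine smul_mem_of_smul hQ0 ?_
    rw [Matrix.neg_vecMul, sub_neg_eq_add, smul_add, Matrix.smul_vecMul, smul_smul, ← map_mul,
      mul_inv_cancel₀ hQ0, map_one, one_smul, add_comm]
    exact h3
  refine (injective_iff_map_eq_zero f).2 fun x hx => ?_
  obtain ⟨w, hw⟩ := hπs (i x)
  obtain ⟨w', hw'⟩ := hsurj w
  rw [hI, LinearMap.mem_ker, map_sub, sub_eq_zero, hw, ← h2] at hw'
  have h5 : x = α w' := hi hw'
  have h6 : w' ∈ I := by rw [hI, LinearMap.mem_ker, ← h1, ← h5, hx]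
  have h7 := hpush w' h6
  rw [hI, LinearMap.mem_ker, ← h2, ← h5] at h7
  exact hi (by rw [h7, map_zero])

/-- The combinatorial form of algebraicity. -/
def AlgMat (R : Type) [Ring R] : Prop :=
  ∀ (n : ℕ) (T : Matrix (Fin n) (Fin n) R), ∃ a b c : ℕ, a < b ∧ (T ^ b - T ^ a) ^ c = 0

theorem leftBasic_of_algMat (K : Type) [Field K] {R : Type} [Ring R] [Algebra K R]
    (h : AlgMat R) : LeftBasic.{u} R := by
  refine leftBasic_of (K := K) fun n T => ?_
  obtain ⟨a, b, c, hab, hc⟩ := h n T
  refine ⟨(X ^ b - X ^ a) ^ c, pow_ne_zero _ ?_, ?_⟩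
  · intro h0
    have := congrArg (fun P : K[X] => P.coeff b) h0
    simp only [coeff_sub, coeff_X_pow, coeff_zero, if_true] at this
    rw [if_neg (by omega), sub_zero] at this
    exact one_ne_zero this
  · rw [map_pow, map_sub, map_pow, map_pow, aeval_X, hc]

/-- Transposition for matrices over the opposite ring. -/
def tr (T : Matrix (Fin n) (Fin n) Rᵐᵒᵖ) : Matrix (Fin n) (Fin n) R := fun i j => unop (T j i)

omit [Algebra K R] in
theorem tr_mul (S T : Matrix (Fin n) (Fin n) Rᵐᵒᵖ) : tr (S * T) = tr T * tr S := by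
  ext i j
  simp only [tr, Matrix.mul_apply, Finset.unop_sum, unop_mul]

omit [Algebra K R] in
theorem tr_one : tr (1 : Matrix (Fin n) (Fin n) Rᵐᵒᵖ) = 1 := by
  ext i j
  simp only [tr, Matrix.one_apply]
  by_cases h : i = j
  · simp [h]
  · rw [if_neg h, if_neg (Ne.symm h)]; rfl

omit [Algebra K R] in
theorem tr_pow (T : Matrix (Fin n) (Fin n) Rᵐᵒᵖ) (k : ℕ) : tr (T ^ k) = (tr T) ^ k := by
  induction k with
  | zero => rw [pow_zero, pow_zero, tr_one]
  | succ k ih => rw [pow_succ, tr_mul, ih, pow_succ']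

omit [Algebra K R] in
theorem AlgMat.op (h : AlgMat R) : AlgMat Rᵐᵒᵖ := by
  intro n T
  obtain ⟨a, b, c, hab, hc⟩ := h n (tr T)
  refine ⟨a, b, c, hab, ?_⟩
  have h1 : tr ((T ^ b - T ^ a) ^ c) = 0 := by
    rw [tr_pow]
    have : tr (T ^ b - T ^ a) = tr (T ^ b) - tr (T ^ a) := rfl
    rw [this, tr_pow, tr_pow, hc]
  ext i j
  have h2 := congrFun (congrFun h1 j) i
  exact unop_injective h2

end basic

/-! ### Noetherian rings with a nil ideal of finite index -/

section noeth

variable {R K : Type} [Ring R] [Ring K] [Finite K]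

/-- A left noetherian ring with a homomorphism to a finite ring whose kernel is nil is finite. -/
theorem finite_of_nil (hR : IsNoetherianRing R) (ε : R →+* K)
    (hnil : ∀ x, ε x = 0 → IsNilpotent x) : Finite R := by
  classical
  by_contra hinf
  -- a maximal two-sided ideal of infinite index
  obtain ⟨W, ⟨hWt, hWinf⟩, hWmax⟩ := set_has_maximal_iff_noetherian.2 hR
    {W : Ideal R | (∀ x ∈ W, ∀ y, x * y ∈ W) ∧ ¬ Finite (R ⧸ W)} ⟨⊥, by
      constructor
      · intro x hx y
        rw [Submodule.mem_bot] at hx ⊢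
        rw [hx, zero_mul]
      · intro h
        exact hinf (Finite.of_injective (fun r : R => (Submodule.Quotient.mk r : R ⧸ (⊥ : Ideal R)))
          (fun x y hxy => by
            have := (Submodule.Quotient.eq (⊥ : Ideal R)).1 hxy
            rw [Submodule.mem_bot] at this
            exact sub_eq_zero.1 this))⟩
  -- the kernel is not contained in `W`
  have hne : ∃ a, ε a = 0 ∧ a ∉ W := by
    by_contra hcon
    push Not at hcon
    apply hWinf
    let g : K → R ⧸ W := fun k => if h : ∃ r, ε r = k then Submodule.Quotient.mk h.choose else 0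
    refine Finite.of_surjective g fun q => ?_
    obtain ⟨r, rfl⟩ := Submodule.Quotient.mk_surjective W q
    refine ⟨ε r, ?_⟩
    have hex : ∃ r', ε r' = ε r := ⟨r, rfl⟩
    have h1 : g (ε r) = Submodule.Quotient.mk hex.choose := dif_pos hex
    rw [h1, Submodule.Quotient.eq]
    exact hcon _ (by rw [map_sub, hex.choose_spec, sub_self])
  -- choose `a` with maximal annihilator modulo `W`
  let l : R → Ideal R := fun a => W.comap (LinearMap.toSpanSingleton R R a)
  have hl : ∀ a r, r ∈ l a ↔ r * a ∈ W := fun a r => Iff.rfl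
  obtain ⟨L, ⟨a, ha0, haW, rfl⟩, hmax⟩ := set_has_maximal_iff_noetherian.2 hR
    {L : Ideal R | ∃ a, ε a = 0 ∧ a ∉ W ∧ l a = L} (by
      obtain ⟨a, h1, h2⟩ := hne
      exact ⟨l a, a, h1, h2, rfl⟩)
  have h1W : (1 : R) ∉ W := fun h => haW (by
    have := Ideal.mul_mem_left W a h
    rwa [mul_one] at this)
  have hau : ∀ u, a * u * a ∈ W := by
    intro u
    by_cases hu : a * u ∈ W
    · exact hWt _ hu a
    · set x := a * u with hx
      have hx0 : ε x = 0 := by rw [hx, map_mul, ha0, zero_mul]
      have hex : ∃ k, x ^ k ∈ W := by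
        obtain ⟨m, hm⟩ := hnil x hx0
        exact ⟨m, by rw [hm]; exact W.zero_mem⟩
      obtain ⟨k, hk⟩ : ∃ k, Nat.find hex = k + 2 := by
        have h0 : Nat.find hex ≠ 0 := by
          intro h
          have := Nat.find_spec hex
          rw [h, pow_zero] at this
          exact h1W this
        have h1 : Nat.find hex ≠ 1 := by
          intro h
          have := Nat.find_spec hex
          rw [h, pow_one] at this
          exact hu this
        exact ⟨Nat.find hex - 2, by omega⟩
      have hkW : x ^ (k + 2) ∈ W := by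
        have := Nat.find_spec hex
        rwa [hk] at this
      have hyW : x ^ (k + 1) ∉ W := Nat.find_min hex (by omega)
      have hy0 : ε (x ^ (k + 1)) = 0 := by rw [pow_succ, map_mul, hx0, mul_zero]
      have hle : l a ≤ l (x ^ (k + 1)) := by
        intro r hr
        rw [hl] at hr ⊢
        have : r * x ^ (k + 1) = r * a * (u * x ^ k) := by
          rw [pow_succ', hx]; simp only [mul_assoc]
        rw [this]
        exact hWt _ hr _
      have heq : l (x ^ (k + 1)) = l a := by
        by_contra hne'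
        exact hmax _ ⟨_, hy0, hyW, rfl⟩ (lt_of_le_of_ne hle (Ne.symm hne'))
      have hxl : x ∈ l (x ^ (k + 1)) := by
        rw [hl, ← pow_succ']
        exact hkW
      rw [heq, hl] at hxl
      exact hxl
  -- the ideal `Q = W + R a R`
  set Q : Ideal R := W ⊔ Ideal.span (Set.range fun s => a * s) with hQ
  have haQ : a ∈ Q := Ideal.mem_sup_right (Ideal.subset_span ⟨1, mul_one a⟩)
  have hQt : ∀ x ∈ Q, ∀ y, x * y ∈ Q := by
    intro x hx y
    obtain ⟨w, hw, z, hz, rfl⟩ := Submodule.mem_sup.1 hx
    rw [add_mul]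
    refine Q.add_mem (Ideal.mem_sup_left (hWt w hw y)) ?_
    induction hz using Submodule.span_induction with
    | mem z hz =>
      obtain ⟨s, rfl⟩ := hz
      exact Ideal.mem_sup_right (Ideal.subset_span ⟨s * y, by simp only [mul_assoc]⟩)
    | zero => rw [zero_mul]; exact Q.zero_mem
    | add p q _ _ hp hq =>
      rw [add_mul]
      refine Q.add_mem (hp ?_) (hq ?_)
      · exact Q.add_mem (Ideal.mem_sup_left hw) (Ideal.mem_sup_right ‹_›)
      · exact Q.add_mem (Ideal.mem_sup_left hw) (Ideal.mem_sup_right ‹_›)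
    | smul c p hp0 hp =>
      rw [smul_eq_mul, mul_assoc]
      exact Q.mul_mem_left _ (hp (Q.add_mem (Ideal.mem_sup_left hw) (Ideal.mem_sup_right hp0)))
  have hQfin : Finite (R ⧸ Q) := by
    by_contra h
    refine hWmax Q ⟨hQt, h⟩ (lt_of_le_of_ne le_sup_left ?_)
    intro heq
    exact haW (by rw [heq]; exact haQ)
  -- `Q * Q ⊆ W`
  have haQW : ∀ s, ∀ q ∈ Q, a * s * q ∈ W := by
    intro s q hq
    obtain ⟨w, hw, z, hz, rfl⟩ := Submodule.mem_sup.1 hq
    rw [mul_add]
    refine W.add_mem (Ideal.mul_mem_left W _ hw) ?_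
    clear hq
    induction hz using Submodule.span_induction generalizing s with
    | mem z hz =>
      obtain ⟨t, rfl⟩ := hz
      have : a * s * (a * t) = a * s * a * t := by simp only [mul_assoc]
      simp only [this]
      exact hWt _ (hau s) t
    | zero => rw [mul_zero]; exact W.zero_mem
    | add p q _ _ hp hq =>
      rw [mul_add]
      exact W.add_mem (hp s) (hq s)
    | smul c p _ hp =>
      have := hp (s * c)
      rw [smul_eq_mul]
      simpa only [mul_assoc] using this
  have hQQ : ∀ x ∈ Q, ∀ q ∈ Q, x * q ∈ W := by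
    intro x hx q hq
    obtain ⟨w, hw, z, hz, rfl⟩ := Submodule.mem_sup.1 hx
    rw [add_mul]
    refine W.add_mem (hWt w hw q) ?_
    clear hx
    induction hz using Submodule.span_induction with
    | mem z hz =>
      obtain ⟨t, rfl⟩ := hz
      exact haQW t q hq
    | zero => rw [zero_mul]; exact W.zero_mem
    | add p q _ _ hp hq' =>
      rw [add_mul]
      exact W.add_mem hp hq'
    | smul c p _ hp =>
      rw [smul_eq_mul, mul_assoc]
      exact Ideal.mul_mem_left W _ hp
  -- `R / W` is finite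
  apply hWinf
  obtain ⟨m, q, hq⟩ := Submodule.fg_iff_exists_fin_generating_family.1 (hR.noetherian Q)
  have hsec : ∀ k : R ⧸ Q, ∃ r : R, (Submodule.Quotient.mk r : R ⧸ Q) = k :=
    Submodule.Quotient.mk_surjective Q
  choose sec hsec' using hsec
  have hqQ : ∀ i, q i ∈ Q := fun i => by rw [← hq]; exact Submodule.subset_span ⟨i, rfl⟩
  refine Finite.of_surjective (fun k : (R ⧸ Q) × (Fin m → R ⧸ Q) =>
    (Submodule.Quotient.mk (sec k.1 + ∑ i, sec (k.2 i) * q i) : R ⧸ W)) fun z => ?_
  obtain ⟨r, rfl⟩ := Submodule.Quotient.mk_surjective W z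
  have h1 : r - sec (Submodule.Quotient.mk r) ∈ Q := by
    rw [← Submodule.Quotient.eq, hsec']
  have h1' := hq.ge h1
  rw [Submodule.mem_span_range_iff_exists_fun] at h1'
  obtain ⟨c, hc⟩ := h1'
  refine ⟨(Submodule.Quotient.mk r, fun i => Submodule.Quotient.mk (c i)), ?_⟩
  simp only
  rw [Submodule.Quotient.eq]
  have h2 : sec (Submodule.Quotient.mk r) + ∑ i, sec (Submodule.Quotient.mk (c i)) * q i - r
      = -∑ i, (c i - sec (Submodule.Quotient.mk (c i))) * q i := by
    have : r = sec (Submodule.Quotient.mk r) + ∑ i, c i * q i := by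
      simp only [smul_eq_mul] at hc
      rw [hc]; abel
    conv_lhs => rw [sub_eq_add_neg]; rhs; rw [this]
    simp only [sub_mul, Finset.sum_sub_distrib]
    abel
  rw [h2]
  refine W.neg_mem (Submodule.sum_mem _ fun i _ => ?_)
  exact hQQ _ (by rw [← Submodule.Quotient.eq, hsec']) _ (hqQ i)

end noeth

/-! ### The ring -/

section golod

open Pool.Agent.Helper884.Golod MonoidAlgebra

/-- The field with two elements. -/
abbrev KK : Type := ZMod 2

theorem exists_ring : ∃ (R : Type) (_ : Ring R) (_ : Algebra KK R) (x y : R) (ε : R →+* KK),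
    Infinite R ∧ Algebra.adjoin KK {x, y} = ⊤ ∧ (∀ z, ε z = 0 → IsNilpotent z) ∧ AlgMat R := by
  classical
  obtain ⟨I, hI, hinf, h1, h2⟩ := Pool.Agent.X279.GolodAll.golod_all (K := KK)
  let q : T KK →ₐ[KK] T KK ⧸ I := Ideal.Quotient.mkₐ KK I
  have hq : Function.Surjective q := Ideal.Quotient.mk_surjective
  have hq0 : ∀ f, q f = 0 ↔ f ∈ I := fun f => Ideal.Quotient.eq_zero_iff_mem
  let ε : T KK ⧸ I →+* KK := Ideal.Quotient.lift I (aug (K := KK)).toRingHom (fun f hf => by
    have := h1 f hf
    rw [← aug_apply] at this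
    exact this)
  have hε : ∀ f, ε (q f) = aug f := fun f => rfl
  -- matrices over the kernel are nilpotent
  have hnil : ∀ (n : ℕ) (Y : Matrix (Fin n) (Fin n) (T KK ⧸ I)), (∀ i j, ε (Y i j) = 0) →
      ∃ e : ℕ, Y ^ e = 0 := by
    intro n Y hY
    choose M hM using fun i j => hq (Y i j)
    have hM1 : ∀ i j, (Matrix.of M) i j ∈ Ge KK 1 := by
      intro i j
      rw [mem_Ge_one_iff, Matrix.of_apply, ← hε, hM]
      exact hY i j
    obtain ⟨e, he⟩ := h2 n (Matrix.of M) hM1
    refine ⟨e, ?_⟩
    have h3 : Y = (Matrix.of M).map q := by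
      ext i j
      exact (hM i j).symm
    have h4 : (Matrix.of M).map q = (q : T KK →+* T KK ⧸ I).mapMatrix (Matrix.of M) := rfl
    rw [h3, h4, ← map_pow]
    ext i j
    exact (hq0 _).2 (he i j)
  refine ⟨T KK ⧸ I, inferInstance, inferInstance, q (single (FreeMonoid.of 0) 1),
    q (single (FreeMonoid.of 1) 1), ε, hinf, ?_, ?_, ?_⟩
  · rw [← Set.image_pair, ← AlgHom.map_adjoin, adjoin_T, Algebra.map_top]
    rw [AlgHom.range_eq_top]
    exact hq
  · intro z hz
    let Z : Matrix (Fin 1) (Fin 1) (T KK ⧸ I) := Matrix.of fun _ _ => z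
    obtain ⟨e, he⟩ := hnil 1 Z (fun _ _ => hz)
    refine ⟨e, ?_⟩
    have h3 : ∀ k : ℕ, (Z ^ k) 0 0 = z ^ k := by
      intro k
      induction k with
      | zero => simp
      | succ k ih =>
        rw [pow_succ, Matrix.mul_apply, Fin.sum_univ_one, ih, pow_succ]
        rfl
    rw [← h3, he]
    rfl
  · intro n X
    obtain ⟨a, b, hab, heq⟩ := Finite.exists_ne_map_eq_of_infinite
      (fun k : ℕ => (ε.mapMatrix X) ^ k)
    wlog hlt : a < b generalizing a b
    · exact this b a (Ne.symm hab) heq.symm (by omega)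
    obtain ⟨c, hc⟩ := hnil n (X ^ b - X ^ a) (fun i j => by
      have h5 : ε.mapMatrix (X ^ b - X ^ a) = 0 := by
        rw [map_sub, map_pow, map_pow, heq, sub_self]
      exact congrFun (congrFun h5 i) j)
    exact ⟨a, b, c, hlt, hc⟩

/-- **Affirmative answer to Q1: a basic ring that is not F-noetherian.** -/
theorem result : ∃ (R : Type) (_ : Ring R), Basic.{u} R ∧ ¬ FNoetherian R := by
  classical
  obtain ⟨R, _, _, x, y, ε, hinf, hgen, hnil, halg⟩ := exists_ring
  refine ⟨R, inferInstance, ⟨leftBasic_of_algMat KK halg, leftBasic_of_algMat KK halg.op⟩, ?_⟩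
  intro hF
  obtain ⟨T, hT, hTn, -⟩ := hF {x, y}
  have hTtop : T = ⊤ := by
    rw [eq_top_iff]
    intro z _
    have hz : z ∈ Algebra.adjoin KK {x, y} := by rw [hgen]; trivial
    refine Algebra.adjoin_induction (p := fun z _ => z ∈ T) ?_ ?_ ?_ ?_ hz
    · intro w hw
      apply hT
      simpa using hw
    · intro c
      have hc : ∀ c : KK, c = 0 ∨ c = 1 := by decide
      rcases hc c with rfl | rfl
      · rw [map_zero]; exact T.zero_mem
      · rw [map_one]; exact T.one_mem
    · intro a b _ _ ha hb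
      exact T.add_mem ha hb
    · intro a b _ _ ha hb
      exact T.mul_mem ha hb
  subst hTtop
  have hRn : IsNoetherianRing R := isNoetherianRing_of_ringEquiv _ (Subring.topEquiv (R := R))
  have hfin := finite_of_nil hRn ε hnil
  exact hinf.not_finite hfin

end golod

end Pool.Agent.Results.MP_42b5d3_al.BasicNotFNoetherian
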